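import Pool.Agent.TH75.TW.Comb

/-!
# Growth lemma A (helper75, job 1411)
-/

set_option autoImplicit false

namespace Pool.Agent.TH75.J1411

open Pool.Agent.TH716.TW Pool.Agent.TH75.TW Finset

/-- class modulo `5` -/
def L5 (N : ℕ) : ZMod 2 := if N % 5 = 2 ∨ N % 5 = 3 then 1 else 0

/-- class modulo `7` -/
def F7 (n : ℕ) : ZMod 2 := if n % 7 = 2 ∨ n % 7 = 5 then 1 else 0

theorem L5_mul (a b : ℕ) (ha : ¬ 5 ∣ a) (hb : ¬ 5 ∣ b) : L5 (a * b) = L5 a + L5 b := by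
  unfold L5
  rw [Nat.mul_mod]
  have h1 : a % 5 ≠ 0 := fun h => ha (Nat.dvd_of_mod_eq_zero h)
  have h2 : b % 5 ≠ 0 := fun h => hb (Nat.dvd_of_mod_eq_zero h)
  have h3 : a % 5 < 5 := Nat.mod_lt _ (by norm_num)
  have h4 : b % 5 < 5 := Nat.mod_lt _ (by norm_num)
  generalize a % 5 = x at *
  generalize b % 5 = y at *
  interval_cases x <;> interval_cases y <;> first | omega | decide

theorem id7 (n a : ℕ) (hn : ¬ 7 ∣ n) (ha : a % 7 = 2 ∨ a % 7 = 3 ∨ a % 7 = 4 ∨ a % 7 = 5) :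
    F7 n - F7 (n * a) = 1 + F7 (n * a ^ 2) := by
  unfold F7
  rw [Nat.mul_mod n a, Nat.mul_mod n (a ^ 2), Nat.pow_mod a 2]
  have h1 : n % 7 ≠ 0 := fun h => hn (Nat.dvd_of_mod_eq_zero h)
  have h3 : n % 7 < 7 := Nat.mod_lt _ (by norm_num)
  generalize n % 7 = x at *
  rcases ha with ha | ha | ha | ha <;> rw [ha] <;> interval_cases x <;> first | omega | decide

theorem two7 (n : ℕ) (h : F7 n ≠ 0) : F7 (2 * n) = 0 := by
  unfold F7 at *
  have h1 : n % 7 = 2 ∨ n % 7 = 5 := by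
    by_contra hcon
    rw [if_neg hcon] at h
    exact h rfl
  rw [if_neg]
  omega

theorem not7 {a : ℕ} (ha : a % 7 = 2 ∨ a % 7 = 3 ∨ a % 7 = 4 ∨ a % 7 = 5) : ¬ 7 ∣ a := by
  omega

theorem not7_prod {S : Finset ℕ}
    (hS : ∀ a ∈ S, a % 7 = 2 ∨ a % 7 = 3 ∨ a % 7 = 4 ∨ a % 7 = 5) : ¬ 7 ∣ ∏ x ∈ S, x := by
  intro h
  have h7 : _root_.Prime 7 := Nat.prime_seven.prime
  obtain ⟨a, ha, h2⟩ := (Prime.dvd_finsetProd_iff h7 _).1 h
  exact not7 (hS a ha) h2

theorem alt7 {S : Finset ℕ} (hS : ∀ a ∈ S, a % 7 = 2 ∨ a % 7 = 3 ∨ a % 7 = 4 ∨ a % 7 = 5)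
    (hne : S.Nonempty) (n : ℕ) (hn : ¬ 7 ∣ n) :
    ∑ T ∈ S.powerset, (-1 : ZMod 2) ^ T.card * F7 (n * ∏ x ∈ T, x) =
      1 + F7 (n * (∏ x ∈ S, x) ^ 2) := by
  induction S using Finset.induction_on generalizing n with
  | empty => exact absurd hne Finset.not_nonempty_empty
  | insert a S ha ih =>
    have haa := hS a (mem_insert_self _ _)
    have hS' : ∀ x ∈ S, x % 7 = 2 ∨ x % 7 = 3 ∨ x % 7 = 4 ∨ x % 7 = 5 :=
      fun x hx => hS x (mem_insert_of_mem hx)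
    have h7 := Nat.prime_seven
    have e : ∀ T ∈ S.powerset, (-1 : ZMod 2) ^ (insert a T).card *
        F7 (n * ∏ x ∈ insert a T, x) =
        -((-1 : ZMod 2) ^ T.card * F7 (n * a * ∏ x ∈ T, x)) := by
      intro T hT
      have haT : a ∉ T := fun h => ha (mem_powerset.1 hT h)
      rw [card_insert_of_notMem haT, prod_insert haT, pow_succ, mul_assoc n a]
      ring
    rw [sum_powerset_insert ha, sum_congr rfl e, sum_neg_distrib]
    rcases S.eq_empty_or_nonempty with h0 | h0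
    · subst h0
      simp only [powerset_empty, sum_singleton, card_empty, pow_zero, prod_empty, mul_one, one_mul,
        insert_empty_eq, prod_singleton]
      rw [← sub_eq_add_neg]
      exact id7 n a hn haa
    · have hna : ¬ 7 ∣ n * a := fun h => (h7.dvd_mul.1 h).elim hn (not7 haa)
      have hnP : ¬ 7 ∣ n * (∏ x ∈ S, x) ^ 2 := fun h =>
        (h7.dvd_mul.1 h).elim hn fun h' => not7_prod hS' (h7.dvd_of_dvd_pow h')
      rw [ih hS' h0 n hn, ih hS' h0 (n * a) hna, prod_insert ha,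
        show n * (a * ∏ x ∈ S, x) ^ 2 = n * (∏ x ∈ S, x) ^ 2 * a ^ 2 by ring,
        ← id7 _ a hnP haa, show n * a * (∏ x ∈ S, x) ^ 2 = n * (∏ x ∈ S, x) ^ 2 * a by ring]
      ring

theorem jac5 (N : ℕ) : jacobiSym (N : ℤ) 5 =
    if N % 5 = 0 then 0 else if N % 5 = 2 ∨ N % 5 = 3 then -1 else 1 := by
  rw [jacobiSym.mod_left]
  have h1 : ((N : ℤ) % ((5 : ℕ) : ℤ)) = ((N % 5 : ℕ) : ℤ) := by push_cast; rfl
  rw [h1]
  have h3 : N % 5 < 5 := Nat.mod_lt _ (by norm_num)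
  generalize N % 5 = x at *
  interval_cases x <;> norm_num

theorem result : S_GA := by
  intro D d hrk hD hJ m hm hme A U hA hU
  choose! rk δ hrk' using hrk
  have hrk1 : ∀ s : ℕ, s.Prime → Rk1 d s (rk s) (δ s) := fun s hs => hrk' s hs
  have hAp : ∀ l ∈ A, l.Prime := fun l hl => (hA l hl).1.1
  have hA7 : ∀ l ∈ A, l % 7 = 2 ∨ l % 7 = 3 ∨ l % 7 = 4 ∨ l % 7 = 5 := fun l hl => (hA l hl).1.2
  have hP7 : ¬ 7 ∣ ∏ x ∈ A, x := not7_prod hA7
  have hP0 : 0 < ∏ x ∈ A, x := prod_pos' hAp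
  -- the decomposition of `m`
  obtain ⟨D0, hD0, h7D⟩ : ∃ D0, m = 7 ^ m.factorization 7 * D0 ∧ ¬ 7 ∣ D0 :=
    ⟨m / 7 ^ m.factorization 7, (Nat.ordProj_mul_ordCompl_eq_self m 7).symm,
      Nat.not_dvd_ordCompl Nat.prime_seven hm.ne'⟩
  set a7 := m.factorization 7 with ha7
  have hcop : ∀ x : ℕ, ¬ 7 ∣ x → x ∣ m → x ∣ D0 := by
    intro x hx hxm
    rw [hD0] at hxm
    exact (Nat.Coprime.pow_right a7
      ((Nat.prime_seven.coprime_iff_not_dvd.2 hx).symm)).dvd_of_dvd_mul_left hxm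
  have hPm : ∏ x ∈ A, x ∣ m :=
    prod_primes_dvd m (fun l hl => (hAp l hl).prime) fun l hl => (hA l hl).2.2
  have h2P : Nat.Coprime 2 (∏ x ∈ A, x) := by
    refine Nat.Coprime.prod_right fun l hl => ?_
    exact (Nat.coprime_primes Nat.prime_two (hAp l hl)).2 (hA l hl).2.1.symm
  have h2D : 2 * ∏ x ∈ A, x ∣ D0 :=
    h2P.mul_dvd_of_dvd_of_dvd (hcop 2 (by norm_num) hme.two_dvd) (hcop _ hP7 hPm)
  obtain ⟨b, hb⟩ := h2D
  have hb7 : ¬ 7 ∣ b := fun h => h7D (hb ▸ Dvd.dvd.mul_left h _)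
  have hb0 : 0 < b := by
    rcases Nat.eq_zero_or_pos b with h | h
    · exact absurd (by rw [h]; exact dvd_zero 7) hb7
    · exact h
  have key : ∀ S ⊆ A, S.Nonempty →
      (∃ s ∈ U ∪ {2, 7} ∪ A, S = A.filter fun l => padicValNat l (rk s) = padicValNat l m) ∨
      ∃ s ∈ A, S = insert s (A.filter fun l => padicValNat l (rk s) = padicValNat l m) := by
    intro S hS hne
    have hSp : ∀ l ∈ S, l.Prime := fun l hl => hAp l (hS hl)
    have hS7 : ∀ l ∈ S, l % 7 = 2 ∨ l % 7 = 3 ∨ l % 7 = 4 ∨ l % 7 = 5 := fun l hl => hA7 l (hS hl)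
    -- the choice of `c`
    obtain ⟨c, e, hc0, hc7, hce, he, hcF⟩ : ∃ c e : ℕ, 0 < c ∧ ¬ 7 ∣ c ∧ m = c * (∏ x ∈ A, x) * e ∧
        (∀ s : ℕ, s.Prime → s ∉ ({2, 7} : Finset ℕ) → ¬ s ∣ e) ∧
        F7 (c * (∏ x ∈ S, x) ^ 2) = 0 := by
      have hs7 : ∀ s : ℕ, s.Prime → s ∉ ({2, 7} : Finset ℕ) → ¬ s ∣ 7 ^ a7 := by
        intro s hs hsE h
        have h2 := hs.dvd_of_dvd_pow h
        rw [Nat.prime_dvd_prime_iff_eq hs Nat.prime_seven] at h2
        exact hsE (by rw [h2]; simp)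
      by_cases hF : F7 (b * (∏ x ∈ S, x) ^ 2) = 0
      · refine ⟨b, 7 ^ a7 * 2, hb0, hb7, ?_, ?_, hF⟩
        · rw [hD0, hb]; ring
        · intro s hs hsE h
          rcases hs.dvd_mul.1 h with h | h
          · exact hs7 s hs hsE h
          · rw [Nat.prime_dvd_prime_iff_eq hs Nat.prime_two] at h
            exact hsE (by rw [h]; simp)
      · refine ⟨2 * b, 7 ^ a7, by omega, by omega, ?_, hs7, ?_⟩
        · rw [hD0, hb]; ring
        · rw [mul_assoc]
          exact two7 _ hF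
    have hn7 : ∀ T ⊆ S, ¬ 7 ∣ c * ∏ x ∈ T, x := fun T hT h =>
      (Nat.prime_seven.dvd_mul.1 h).elim hc7 (not7_prod fun l hl => hS7 l (hT hl))
    have hnpos : ∀ T ⊆ S, 0 < c * ∏ x ∈ T, x := fun T hT =>
      Nat.mul_pos hc0 (prod_pos' fun l hl => hSp l (hT hl))
    have hval : ∀ T ⊆ S, ¬ 5 ∣ D (c * ∏ x ∈ T, x) ∧
        L5 (D (c * ∏ x ∈ T, x)) = F7 (c * ∏ x ∈ T, x) := by
      intro T hT
      have h1 := hJ _ (hnpos T hT) (hn7 T hT)
      rw [jac5] at h1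
      unfold L5 F7
      constructor
      · intro h5
        rw [if_pos (Nat.mod_eq_zero_of_dvd h5)] at h1
        split_ifs at h1 <;> norm_num at h1
      · by_cases h2 : D (c * ∏ x ∈ T, x) % 5 = 0
        · rw [if_pos h2] at h1
          split_ifs at h1 <;> norm_num at h1
        · rw [if_neg h2] at h1
          by_cases h3 : D (c * ∏ x ∈ T, x) % 5 = 2 ∨ D (c * ∏ x ∈ T, x) % 5 = 3
          · by_cases h4 : (c * ∏ x ∈ T, x) % 7 = 2 ∨ (c * ∏ x ∈ T, x) % 7 = 5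
            · rw [if_pos h3, if_pos h4]
            · rw [if_pos h3, if_neg h4] at h1
              norm_num at h1
          · by_cases h4 : (c * ∏ x ∈ T, x) % 7 = 2 ∨ (c * ∏ x ∈ T, x) % 7 = 5
            · rw [if_neg h3, if_pos h4] at h1
              norm_num at h1
            · rw [if_neg h3, if_neg h4]
    have hsum : ∑ T ∈ S.powerset, (-1 : ZMod 2) ^ T.card * L5 (D (c * ∏ x ∈ T, x)) ≠ 0 := by
      rw [sum_congr rfl fun T hT => by rw [(hval T (mem_powerset.1 hT)).2],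
        alt7 hS7 hne c hc7, hcF, add_zero]
      exact one_ne_zero
    obtain ⟨s, hs, hLs, halt⟩ := exists_prime hD (p := 5) (L := L5) (by decide) L5_mul hc0 hSp
      (fun T hT => (hval T hT).1) hsum
    have hA27 : ∀ l ∈ A, l ∉ ({2, 7} : Finset ℕ) := by
      intro l hl h
      rw [mem_insert, mem_singleton] at h
      rcases h with h | h
      · exact (hA l hl).2.1 h
      · have := hA7 l hl
        omega
    have he0 : e ≠ 0 := by
      rintro rfl
      rw [mul_zero] at hce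
      exact hm.ne' hce
    refine one_set hm hAp rk δ hrk1 hc0 (E := {2, 7}) ?_ ?_ ?_ hS hs ?_ halt
    · intro l hl
      have hlp := hAp l hl
      have := Fact.mk hlp
      rw [hce, padicValNat.mul (Nat.mul_pos hc0 hP0).ne' he0, padicValNat.mul hc0.ne' hP0.ne',
        padic_prod hAp hlp, if_pos hl,
        padicValNat.eq_zero_of_not_dvd (he l hlp (hA27 l hl)), add_zero]
    · exact ⟨e, hce⟩
    · intro q hq hqE hqA
      have := Fact.mk hq
      rw [hce, padicValNat.mul (Nat.mul_pos hc0 hP0).ne' he0, padicValNat.mul hc0.ne' hP0.ne',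
        padic_prod hAp hq, if_neg hqA,
        padicValNat.eq_zero_of_not_dvd (he q hq hqE), add_zero, add_zero]
    · intro hsE _ hdm
      refine hU s ⟨hs, ?_, ?_⟩ ?_
      · intro h
        exact hsE (by rw [h]; simp)
      · unfold L5 at hLs
        by_contra hcon
        rw [if_neg hcon] at hLs
        exact hLs rfl
      · rw [← Nat.not_even_iff_odd]
        intro h
        exact hdm ((ZMod.natCast_eq_zero_iff_even).2 h)
  have h := count (U := U) (E := {2, 7}) _ key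
  have h2 : ({2, 7} : Finset ℕ).card = 2 := by decide
  rw [h2] at h
  omega

end Pool.Agent.TH75.J1411
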