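import Pool.Agent.TH75.TW.Comb

/-!
# Growth lemma B (helper75, job 1412)
-/

set_option autoImplicit false

namespace Pool.Agent.TH75.J1412

open Pool.Agent.TH716.TW Pool.Agent.TH75.TW Finset

/-- class modulo `5` -/
def g5 (n : ℕ) : ZMod 3 := if n % 5 = 2 ∨ n % 5 = 3 then 2 else 0

/-- quadratic character modulo `5` -/
def c5 (n : ℕ) : ZMod 3 := if n % 5 = 2 ∨ n % 5 = 3 then -1 else 1

theorem cb_mul (a b : ℕ) (ha : ¬ 7 ∣ a) (hb : ¬ 7 ∣ b) : cb (a * b) = cb a + cb b := by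
  unfold cb
  rw [Nat.mul_mod]
  have h1 : a % 7 ≠ 0 := fun h => ha (Nat.dvd_of_mod_eq_zero h)
  have h2 : b % 7 ≠ 0 := fun h => hb (Nat.dvd_of_mod_eq_zero h)
  have h3 : a % 7 < 7 := Nat.mod_lt _ (by norm_num)
  have h4 : b % 7 < 7 := Nat.mod_lt _ (by norm_num)
  generalize a % 7 = x at *
  generalize b % 7 = y at *
  interval_cases x <;> interval_cases y <;> first | omega | decide

theorem id5 (n a : ℕ) (hn : ¬ 5 ∣ n) (ha : a % 5 = 2 ∨ a % 5 = 3) :
    g5 n - g5 (n * a) = c5 n := by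
  unfold g5 c5
  rw [Nat.mul_mod n a]
  have h1 : n % 5 ≠ 0 := fun h => hn (Nat.dvd_of_mod_eq_zero h)
  have h3 : n % 5 < 5 := Nat.mod_lt _ (by norm_num)
  generalize n % 5 = x at *
  rcases ha with ha | ha <;> rw [ha] <;> interval_cases x <;> first | omega | decide

theorem id5' (n a : ℕ) (hn : ¬ 5 ∣ n) (ha : a % 5 = 2 ∨ a % 5 = 3) :
    c5 n - c5 (n * a) = - c5 n := by
  unfold c5
  rw [Nat.mul_mod n a]
  have h1 : n % 5 ≠ 0 := fun h => hn (Nat.dvd_of_mod_eq_zero h)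
  have h3 : n % 5 < 5 := Nat.mod_lt _ (by norm_num)
  generalize n % 5 = x at *
  rcases ha with ha | ha <;> rw [ha] <;> interval_cases x <;> first | omega | decide

theorem c5_ne (n : ℕ) : c5 n ≠ 0 := by
  unfold c5
  split_ifs <;> decide

theorem not5 {a : ℕ} (ha : a % 5 = 2 ∨ a % 5 = 3) : ¬ 5 ∣ a := by omega

theorem not5_prod {S : Finset ℕ} (hS : ∀ a ∈ S, a % 5 = 2 ∨ a % 5 = 3) : ¬ 5 ∣ ∏ x ∈ S, x := by
  intro h
  have h5 : _root_.Prime 5 := Nat.prime_five.prime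
  obtain ⟨a, ha, h2⟩ := (Prime.dvd_finsetProd_iff h5 _).1 h
  exact not5 (hS a ha) h2

theorem alt5 {S : Finset ℕ} (hS : ∀ a ∈ S, a % 5 = 2 ∨ a % 5 = 3) (hne : S.Nonempty) :
    ∃ ε : ZMod 3, ε ≠ 0 ∧ ∀ n : ℕ, ¬ 5 ∣ n →
      ∑ T ∈ S.powerset, (-1 : ZMod 3) ^ T.card * g5 (n * ∏ x ∈ T, x) = ε * c5 n := by
  induction S using Finset.induction_on with
  | empty => exact absurd hne Finset.not_nonempty_empty
  | insert a S ha ih =>
    have haa := hS a (mem_insert_self _ _)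
    have hS' : ∀ x ∈ S, x % 5 = 2 ∨ x % 5 = 3 := fun x hx => hS x (mem_insert_of_mem hx)
    have h5 := Nat.prime_five
    have e : ∀ n : ℕ, ∀ T ∈ S.powerset, (-1 : ZMod 3) ^ (insert a T).card *
        g5 (n * ∏ x ∈ insert a T, x) =
        -((-1 : ZMod 3) ^ T.card * g5 (n * a * ∏ x ∈ T, x)) := by
      intro n T hT
      have haT : a ∉ T := fun h => ha (mem_powerset.1 hT h)
      rw [card_insert_of_notMem haT, prod_insert haT, pow_succ, mul_assoc n a]
      ring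
    rcases S.eq_empty_or_nonempty with h0 | h0
    · subst h0
      refine ⟨1, one_ne_zero, fun n hn => ?_⟩
      rw [sum_powerset_insert ha, sum_congr rfl (e n), sum_neg_distrib]
      simp only [powerset_empty, sum_singleton, card_empty, pow_zero, prod_empty, mul_one, one_mul]
      rw [← sub_eq_add_neg]
      exact id5 n a hn haa
    · obtain ⟨ε, hε, hs⟩ := ih hS' h0
      refine ⟨-ε, neg_ne_zero.2 hε, fun n hn => ?_⟩
      have hna : ¬ 5 ∣ n * a := fun h => (h5.dvd_mul.1 h).elim hn (not5 haa)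
      rw [sum_powerset_insert ha, sum_congr rfl (e n), sum_neg_distrib, hs n hn, hs (n * a) hna]
      have := id5' n a hn haa
      linear_combination ε * this

theorem result : S_GB := by
  intro D d hrk hD hJ m hm A U hA hU
  choose! rk δ hrk' using hrk
  have hrk1 : ∀ s : ℕ, s.Prime → Rk1 d s (rk s) (δ s) := fun s hs => hrk' s hs
  have hAp : ∀ l ∈ A, l.Prime := fun l hl => (hA l hl).1.1
  have hA5 : ∀ l ∈ A, l % 5 = 2 ∨ l % 5 = 3 := fun l hl => (hA l hl).1.2.2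
  have hP5 : ¬ 5 ∣ ∏ x ∈ A, x := not5_prod hA5
  have hP0 : 0 < ∏ x ∈ A, x := prod_pos' hAp
  -- the decomposition of `m`
  obtain ⟨D0, hD0, h5D⟩ : ∃ D0, m = 5 ^ m.factorization 5 * D0 ∧ ¬ 5 ∣ D0 :=
    ⟨m / 5 ^ m.factorization 5, (Nat.ordProj_mul_ordCompl_eq_self m 5).symm,
      Nat.not_dvd_ordCompl Nat.prime_five hm.ne'⟩
  set a5 := m.factorization 5 with ha5
  have hPm : ∏ x ∈ A, x ∣ m :=
    prod_primes_dvd m (fun l hl => (hAp l hl).prime) fun l hl => (hA l hl).2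
  have hPD : ∏ x ∈ A, x ∣ D0 := by
    rw [hD0] at hPm
    exact (Nat.Coprime.pow_right a5
      ((Nat.prime_five.coprime_iff_not_dvd.2 hP5).symm)).dvd_of_dvd_mul_left hPm
  obtain ⟨b, hb⟩ := hPD
  have hb5 : ¬ 5 ∣ b := fun h => h5D (hb ▸ Dvd.dvd.mul_left h _)
  have hb0 : 0 < b := by
    rcases Nat.eq_zero_or_pos b with h | h
    · exact absurd (by rw [h]; exact dvd_zero 5) hb5
    · exact h
  have hce : m = b * (∏ x ∈ A, x) * 5 ^ a5 := by
    rw [hD0, hb]; ring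
  have he : ∀ s : ℕ, s.Prime → s ∉ ({5} : Finset ℕ) → ¬ s ∣ 5 ^ a5 := by
    intro s hs hsE h
    have h2 := hs.dvd_of_dvd_pow h
    rw [Nat.prime_dvd_prime_iff_eq hs Nat.prime_five] at h2
    exact hsE (by rw [h2]; simp)
  have he0 : 5 ^ a5 ≠ 0 := by positivity
  have hAE : ∀ l ∈ A, l ∉ ({5} : Finset ℕ) := by
    intro l hl h
    rw [mem_singleton] at h
    have := hA5 l hl
    omega
  have key : ∀ S ⊆ A, S.Nonempty →
      (∃ s ∈ U ∪ {5} ∪ A, S = A.filter fun l => padicValNat l (rk s) = padicValNat l m) ∨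
      ∃ s ∈ A, S = insert s (A.filter fun l => padicValNat l (rk s) = padicValNat l m) := by
    intro S hS hne
    have hSp : ∀ l ∈ S, l.Prime := fun l hl => hAp l (hS hl)
    have hS5 : ∀ l ∈ S, l % 5 = 2 ∨ l % 5 = 3 := fun l hl => hA5 l (hS hl)
    have hn5 : ∀ T ⊆ S, ¬ 5 ∣ b * ∏ x ∈ T, x := fun T hT h =>
      (Nat.prime_five.dvd_mul.1 h).elim hb5 (not5_prod fun l hl => hS5 l (hT hl))
    have hnpos : ∀ T ⊆ S, 0 < b * ∏ x ∈ T, x := fun T hT =>
      Nat.mul_pos hb0 (prod_pos' fun l hl => hSp l (hT hl))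
    have hsum : ∑ T ∈ S.powerset, (-1 : ZMod 3) ^ T.card * cb (D (b * ∏ x ∈ T, x)) ≠ 0 := by
      obtain ⟨ε, hε, hs⟩ := alt5 hS5 hne
      rw [sum_congr rfl (g := fun T => (-1 : ZMod 3) ^ T.card * g5 (b * ∏ x ∈ T, x)) fun T hT => by
        rw [(hJ _ (hnpos T (mem_powerset.1 hT)) (hn5 T (mem_powerset.1 hT))).2]; rfl,
        hs b hb5]
      exact mul_ne_zero hε (c5_ne b)
    obtain ⟨s, hs, hLs, halt⟩ := exists_prime hD (p := 7) (L := cb) (by decide) cb_mul hb0 hSp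
      (fun T hT => (hJ _ (hnpos T hT) (hn5 T hT)).1) hsum
    refine one_set hm hAp rk δ hrk1 hb0 (E := {5}) ?_ ?_ ?_ hS hs ?_ halt
    · intro l hl
      have hlp := hAp l hl
      have := Fact.mk hlp
      rw [hce, padicValNat.mul (Nat.mul_pos hb0 hP0).ne' he0, padicValNat.mul hb0.ne' hP0.ne',
        padic_prod hAp hlp, if_pos hl,
        padicValNat.eq_zero_of_not_dvd (he l hlp (hAE l hl)), add_zero]
    · exact ⟨5 ^ a5, hce⟩
    · intro q hq hqE hqA
      have := Fact.mk hq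
      rw [hce, padicValNat.mul (Nat.mul_pos hb0 hP0).ne' he0, padicValNat.mul hb0.ne' hP0.ne',
        padic_prod hAp hq, if_neg hqA,
        padicValNat.eq_zero_of_not_dvd (he q hq hqE), add_zero, add_zero]
    · intro _ _ hdm
      refine hU s ⟨hs, ?_⟩ ?_
      · unfold cb at hLs
        by_contra hcon
        rw [if_neg (by omega), if_neg (by omega)] at hLs
        exact hLs rfl
      · intro h
        exact hdm ((ZMod.natCast_eq_zero_iff _ _).2 h)
  have h := count (U := U) (E := {5}) _ key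
  rw [card_singleton] at h
  omega

end Pool.Agent.TH75.J1412
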