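import Pool.Agent.TH716.TW.Defs

/-!
# Soundness of the two tests (helper75, job 1413)
-/

set_option autoImplicit false

namespace Pool.Agent.TH75.J1413

open Pool.Agent.TH716.TW Polynomial

/-! ### the cubic norm form -/

/-- the norm form over any ring -/
def nmR {R : Type*} [CommRing R] (x y w : R) : R :=
  x ^ 3 - x ^ 2 * y + 5 * x ^ 2 * w - 2 * x * y ^ 2 - x * y * w + 6 * x * w ^ 2 + y ^ 3 -
    y ^ 2 * w - 2 * y * w ^ 2 + w ^ 3

theorem map_nmR {R S : Type*} [CommRing R] [CommRing S] (f : R →+* S) (x y w : R) :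
    f (nmR x y w) = nmR (f x) (f y) (f w) := by
  simp only [nmR, map_add, map_sub, map_mul, map_pow, map_ofNat]

theorem conj_id {R : Type*} [CommRing R] (x y w t : R) (h : t ^ 3 + t ^ 2 - 2 * t - 1 = 0) :
    (x + y * t + w * t ^ 2) * (x + y * (t ^ 2 - 2) + w * (t ^ 2 - 2) ^ 2) *
      (x + y * (1 - t - t ^ 2) + w * (1 - t - t ^ 2) ^ 2) = nmR x y w := by
  unfold nmR
  linear_combination (w^3 + (-2)*w^3*t^1 + (1)*w^3*t^2 + (5)*w^3*t^3 + (-3)*w^3*t^4 +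
    (-4)*w^3*t^5 + (1)*w^3*t^6 + (1)*w^3*t^7 + (-2)*y^1*w^2 + (4)*y^1*w^2*t^2 +
    (-2)*y^1*w^2*t^3 + (-3)*y^1*w^2*t^4 + (1)*y^1*w^2*t^5 + (1)*y^1*w^2*t^6 + (-1)*y^2*w^1 +
    (1)*y^2*w^1*t^2 + (1)*y^3 + (-1)*y^3*t^2 + (2)*x^1*w^2 + (4)*x^1*w^2*t^1 +
    (-3)*x^1*w^2*t^2 + (-2)*x^1*w^2*t^3 + (1)*x^1*w^2*t^4 + (1)*x^1*w^2*t^5 +
    (-3)*x^1*y^1*w^1 + (1)*x^1*y^1*w^1*t^1 + (3)*x^1*y^1*w^1*t^2 + (-1)*x^1*y^2*t^1 +
    (2)*x^2*w^1*t^1) * h

theorem conj1 {R : Type*} [CommRing R] (t : R) (h : t ^ 3 + t ^ 2 - 2 * t - 1 = 0) :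
    (t ^ 2 - 2) ^ 3 + (t ^ 2 - 2) ^ 2 - 2 * (t ^ 2 - 2) - 1 = 0 := by
  linear_combination (t ^ 3 - t ^ 2 - 2 * t + 1) * h

theorem conj2 {R : Type*} [CommRing R] (t : R) (h : t ^ 3 + t ^ 2 - 2 * t - 1 = 0) :
    (1 - t - t ^ 2) ^ 3 + (1 - t - t ^ 2) ^ 2 - 2 * (1 - t - t ^ 2) - 1 = 0 := by
  linear_combination (1 + t - 2 * t ^ 2 - t ^ 3) * h

/-! ### the cubic has no root modulo `p` -/

theorem no_root {p : ℕ} [Fact p.Prime] (hp : p % 7 = 2 ∨ p % 7 = 3 ∨ p % 7 = 4 ∨ p % 7 = 5)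
    (c : ZMod p) : c ^ 3 + c ^ 2 - 2 * c - 1 ≠ 0 := by
  intro hc
  have h7 : (7 : ZMod p) ≠ 0 := by
    intro h
    have h1 : ((7 : ℕ) : ZMod p) = 0 := by exact_mod_cast h
    rw [ZMod.natCast_eq_zero_iff] at h1
    rw [Nat.prime_dvd_prime_iff_eq Fact.out Nat.prime_seven] at h1
    rw [h1] at hp
    omega
  obtain ⟨E, hE⟩ : ∃ E : ℕ → ZMod p, ∀ n, E n = (dickson 1 (1 : ZMod p) n).eval c :=
    ⟨_, fun n => rfl⟩
  have hE0 : E 0 = 2 := by
    rw [hE, dickson_zero]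
    simp only [eval_sub, eval_ofNat, Nat.cast_one, eval_one]
    norm_num
  have hE1 : E 1 = c := by rw [hE, dickson_one, eval_X]
  have hrec : ∀ n, E (n + 2) = c * E (n + 1) - E n := by
    intro n
    rw [hE, hE, hE, dickson_add_two]
    simp
  have hEp : E p = c := by
    rw [hE, dickson_one_one_charP, eval_pow, eval_X, ZMod.pow_card]
  have hE2 : E 2 = c ^ 2 - 2 := by
    rw [hrec 0, hE1, hE0]; ring
  have hE3 : E 3 = c ^ 3 - 3 * c := by
    rw [hrec 1, hE2, hE1]; ring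
  have hE4 : E 4 = c ^ 3 - 3 * c := by
    rw [hrec 2, hE3, hE2]
    linear_combination (c - 2) * hc
  have hE5 : E 5 = c ^ 2 - 2 := by
    rw [hrec 3, hE4, hE3]
    linear_combination (c - 2) * hc
  have hE6 : E 6 = c := by
    rw [hrec 4, hE5, hE4]; ring
  have hE7 : E 7 = 2 := by
    rw [hrec 5, hE6, hE5]; ring
  have hE8 : E 8 = c := by
    rw [hrec 6, hE7, hE6]; ring
  have hper : ∀ n, E (n + 7) = E n ∧ E (n + 8) = E (n + 1) := by
    intro n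
    induction n with
    | zero => exact ⟨by rw [hE7, hE0], by rw [hE8, hE1]⟩
    | succ n ih =>
      refine ⟨ih.2, ?_⟩
      have h1 := hrec (n + 7)
      have h2 := hrec n
      rw [show n + 7 + 2 = n + 1 + 8 by ring, show n + 7 + 1 = n + 8 by ring, ih.1, ih.2,
        ← h2] at h1
      exact h1
  have hper2 : ∀ q n, E (n + 7 * q) = E n := by
    intro q
    induction q with
    | zero => intro n; simp
    | succ q ih =>
      intro n
      rw [show n + 7 * (q + 1) = (n + 7 * q) + 7 by ring, (hper _).1, ih]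
  have hpm : E p = E (p % 7) := by
    conv_lhs => rw [← Nat.mod_add_div p 7]
    exact hper2 _ _
  rw [hEp] at hpm
  have hcase : c = c ^ 2 - 2 ∨ c = c ^ 3 - 3 * c := by
    rcases hp with h | h | h | h <;> rw [h] at hpm
    · left; rw [hE2] at hpm; exact hpm
    · right; rw [hE3] at hpm; exact hpm
    · right; rw [hE4] at hpm; exact hpm
    · left; rw [hE5] at hpm; exact hpm
  have h2 : c = 2 := by
    rcases hcase with h | h
    · have h3 : (c - 2) * (c + 1) = 0 := by linear_combination -h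
      rcases mul_eq_zero.1 h3 with h4 | h4
      · linear_combination h4
      · exfalso
        have h5 : c = -1 := by linear_combination h4
        rw [h5] at hc
        have : (1 : ZMod p) = 0 := by linear_combination hc
        exact one_ne_zero this
    · -- `c ^ 2 + 2 c - 1 = 0`
      have h3 : c ^ 2 + 2 * c - 1 = 0 := by linear_combination hc + h
      linear_combination hc - (c - 1) * h3
  rw [h2] at hc
  apply h7
  linear_combination hc

/-- the form is anisotropic modulo `p` -/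
theorem aniso7 {p : ℕ} [Fact p.Prime] (hp : p % 7 = 2 ∨ p % 7 = 3 ∨ p % 7 = 4 ∨ p % 7 = 5)
    (x y w : ZMod p) (h : nmR x y w = 0) : x = 0 ∧ y = 0 ∧ w = 0 := by
  by_contra hcon
  set f : (ZMod p)[X] := X ^ 3 + X ^ 2 - C 2 * X - C 1 with hf
  set g : (ZMod p)[X] := C x + C y * X + C w * X ^ 2 with hg
  have hfd : f.natDegree = 3 := by rw [hf]; compute_degree!
  have hfm : f.Monic := by
    rw [hf]; monicity!
  have hirr : Irreducible f := by
    rw [hfm.irreducible_iff_roots_eq_zero_of_degree_le_three (by omega) (by omega)]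
    rw [Multiset.eq_zero_iff_forall_notMem]
    intro c hc
    rw [mem_roots hfm.ne_zero, IsRoot, hf] at hc
    simp only [eval_add, eval_sub, eval_mul, eval_pow, eval_X, eval_C] at hc
    exact no_root hp c hc
  have hg0 : g ≠ 0 := by
    intro h0
    apply hcon
    have h1 : g.coeff 0 = x := by rw [hg]; simp
    have h2 : g.coeff 1 = y := by rw [hg]; simp [coeff_C]
    have h3 : g.coeff 2 = w := by rw [hg]; simp
    rw [h0] at h1 h2 h3
    simp only [coeff_zero] at h1 h2 h3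
    exact ⟨h1.symm, h2.symm, h3.symm⟩
  have hcop : IsCoprime f g := by
    rw [hirr.coprime_iff_not_dvd]
    intro hd
    have h1 := natDegree_le_of_dvd hd hg0
    have h2 : g.natDegree ≤ 2 := by rw [hg]; compute_degree
    omega
  obtain ⟨A, B, hAB⟩ := hcop
  obtain ⟨t, ht⟩ := IsAlgClosed.exists_aeval_eq_zero (AlgebraicClosure (ZMod p)) f (by
    rw [degree_eq_natDegree hfm.ne_zero, hfd]; norm_num)
  set φ := algebraMap (ZMod p) (AlgebraicClosure (ZMod p)) with hφ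
  have hfe : ∀ s : AlgebraicClosure (ZMod p), aeval s f = s ^ 3 + s ^ 2 - 2 * s - 1 := by
    intro s
    rw [hf]
    simp [map_ofNat]
  have hge : ∀ s : AlgebraicClosure (ZMod p), aeval s g = φ x + φ y * s + φ w * s ^ 2 := by
    intro s
    rw [hg]
    simp [hφ]
  have hunit : ∀ s : AlgebraicClosure (ZMod p), s ^ 3 + s ^ 2 - 2 * s - 1 = 0 →
      φ x + φ y * s + φ w * s ^ 2 ≠ 0 := by
    intro s hs h0
    have h1 := congrArg (aeval s) hAB
    rw [map_add, map_mul, map_mul, hfe, hge, hs, h0, mul_zero, mul_zero, add_zero, map_one] at h1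
    exact zero_ne_one h1
  rw [hfe] at ht
  have h1 := conj_id (φ x) (φ y) (φ w) t ht
  rw [← map_nmR, h, map_zero] at h1
  exact mul_ne_zero (mul_ne_zero (hunit t ht) (hunit _ (conj1 t ht))) (hunit _ (conj2 t ht)) h1

/-! ### valuations -/

theorem norm_one_of {p : ℕ} [Fact p.Prime] (Y : ℤ_[p]) (h : PadicInt.toZMod Y ≠ 0) :
    ‖Y‖ = 1 := by
  rw [← PadicInt.isUnit_iff]
  by_contra hcon
  apply h
  have h1 : Y ∈ IsLocalRing.maximalIdeal ℤ_[p] := (IsLocalRing.mem_maximalIdeal Y).2 hcon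
  rw [← PadicInt.ker_toZMod] at h1
  exact h1

theorem val_nonneg {p : ℕ} [Fact p.Prime] (q : ℚ) (h : ‖(q : ℚ_[p])‖ ≤ 1) :
    0 ≤ padicValRat p q := by
  rw [Padic.norm_le_one_iff_val_nonneg, Padic.valuation_ratCast] at h
  exact h

theorem val_zero {p : ℕ} [Fact p.Prime] (q : ℚ) (h : ‖(q : ℚ_[p])‖ = 1) :
    padicValRat p q = 0 := by
  have h1 := val_nonneg q h.le
  have h2 : ‖((q⁻¹ : ℚ) : ℚ_[p])‖ ≤ 1 := by
    rw [Rat.cast_inv, norm_inv, h, inv_one]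
  have h3 := val_nonneg q⁻¹ h2
  rw [padicValRat.inv] at h3
  omega

theorem val_le {p : ℕ} [Fact p.Prime] {x z : ℚ} (hx : x ≠ 0) (hz : z ≠ 0)
    (h : ‖(x : ℚ_[p])‖ ≤ ‖(z : ℚ_[p])‖) : padicValRat p z ≤ padicValRat p x := by
  have hz' : (z : ℚ_[p]) ≠ 0 := by exact_mod_cast hz
  have h1 : ‖((x / z : ℚ) : ℚ_[p])‖ ≤ 1 := by
    rw [Rat.cast_div, norm_div]
    exact div_le_one_of_le₀ h (norm_nonneg _)
  have h2 := val_nonneg _ h1
  rw [padicValRat.div hx hz] at h2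
  omega

theorem form7 {p : ℕ} (hp : I7 p) (a b c : ℚ) (h : ¬ (a = 0 ∧ b = 0 ∧ c = 0)) :
    ∃ z : ℚ, z ≠ 0 ∧ nm a b c ≠ 0 ∧ padicValRat p (nm a b c) = 3 * padicValRat p z ∧
      (tr a b c = 0 ∨ padicValRat p z ≤ padicValRat p (tr a b c)) := by
  have := Fact.mk hp.1
  obtain ⟨z, hz, hzm, ha, hb, hc⟩ : ∃ z : ℚ, z ≠ 0 ∧ (z = a ∨ z = b ∨ z = c) ∧
      ‖(a : ℚ_[p])‖ ≤ ‖(z : ℚ_[p])‖ ∧ ‖(b : ℚ_[p])‖ ≤ ‖(z : ℚ_[p])‖ ∧
      ‖(c : ℚ_[p])‖ ≤ ‖(z : ℚ_[p])‖ := by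
    have key : ∀ z : ℚ, ‖(a : ℚ_[p])‖ ≤ ‖(z : ℚ_[p])‖ → ‖(b : ℚ_[p])‖ ≤ ‖(z : ℚ_[p])‖ →
        ‖(c : ℚ_[p])‖ ≤ ‖(z : ℚ_[p])‖ → z ≠ 0 := by
      intro z h1 h2 h3 hz
      rw [hz, Rat.cast_zero, norm_zero] at h1 h2 h3
      apply h
      refine ⟨?_, ?_, ?_⟩
      · have := norm_eq_zero.1 (le_antisymm h1 (norm_nonneg _)); exact_mod_cast this
      · have := norm_eq_zero.1 (le_antisymm h2 (norm_nonneg _)); exact_mod_cast this
      · have := norm_eq_zero.1 (le_antisymm h3 (norm_nonneg _)); exact_mod_cast this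
    rcases le_total ‖(a : ℚ_[p])‖ ‖(b : ℚ_[p])‖ with h1 | h1
    · rcases le_total ‖(b : ℚ_[p])‖ ‖(c : ℚ_[p])‖ with h2 | h2
      · exact ⟨c, key c (h1.trans h2) h2 le_rfl, Or.inr (Or.inr rfl), h1.trans h2, h2, le_rfl⟩
      · exact ⟨b, key b h1 le_rfl h2, Or.inr (Or.inl rfl), h1, le_rfl, h2⟩
    · rcases le_total ‖(a : ℚ_[p])‖ ‖(c : ℚ_[p])‖ with h2 | h2
      · exact ⟨c, key c h2 (h1.trans h2) le_rfl, Or.inr (Or.inr rfl), h2, h1.trans h2, le_rfl⟩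
      · exact ⟨a, key a le_rfl h1 h2, Or.inl rfl, le_rfl, h1, h2⟩
  have hz' : (z : ℚ_[p]) ≠ 0 := by exact_mod_cast hz
  have hint : ∀ x : ℚ, ‖(x : ℚ_[p])‖ ≤ ‖(z : ℚ_[p])‖ → ‖((x / z : ℚ) : ℚ_[p])‖ ≤ 1 := by
    intro x hx
    rw [Rat.cast_div, norm_div]
    exact div_le_one_of_le₀ hx (norm_nonneg _)
  obtain ⟨ya, hya⟩ : ∃ ya : ℤ_[p], (ya : ℚ_[p]) = ((a / z : ℚ) : ℚ_[p]) :=
    ⟨⟨_, hint a ha⟩, rfl⟩
  obtain ⟨yb, hyb⟩ : ∃ yb : ℤ_[p], (yb : ℚ_[p]) = ((b / z : ℚ) : ℚ_[p]) :=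
    ⟨⟨_, hint b hb⟩, rfl⟩
  obtain ⟨yc, hyc⟩ : ∃ yc : ℤ_[p], (yc : ℚ_[p]) = ((c / z : ℚ) : ℚ_[p]) :=
    ⟨⟨_, hint c hc⟩, rfl⟩
  have hone : ∀ (x : ℚ) (Y : ℤ_[p]), (Y : ℚ_[p]) = ((x / z : ℚ) : ℚ_[p]) → z = x → Y = 1 := by
    intro x Y hY hzx
    apply PadicInt.ext
    rw [hY, ← hzx, div_self hz, Rat.cast_one, PadicInt.coe_one]
  have hN : ‖nmR ya yb yc‖ = 1 := by
    apply norm_one_of
    rw [map_nmR]
    intro h0
    obtain ⟨h1, h2, h3⟩ := aniso7 hp.2 _ _ _ h0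
    rcases hzm with h4 | h4 | h4
    · rw [hone a _ hya h4, map_one] at h1; exact one_ne_zero h1
    · rw [hone b _ hyb h4, map_one] at h2; exact one_ne_zero h2
    · rw [hone c _ hyc h4, map_one] at h3; exact one_ne_zero h3
  have hN2 : ‖((nm (a / z) (b / z) (c / z) : ℚ) : ℚ_[p])‖ = 1 := by
    have e1 : ((nmR ya yb yc : ℤ_[p]) : ℚ_[p]) = nmR (ya : ℚ_[p]) (yb : ℚ_[p]) (yc : ℚ_[p]) :=
      map_nmR PadicInt.Coe.ringHom ya yb yc
    have e2 : ((nm (a / z) (b / z) (c / z) : ℚ) : ℚ_[p]) =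
        nmR ((a / z : ℚ) : ℚ_[p]) ((b / z : ℚ) : ℚ_[p]) ((c / z : ℚ) : ℚ_[p]) :=
      map_nmR (Rat.castHom ℚ_[p]) (a / z) (b / z) (c / z)
    rw [e2, ← hya, ← hyb, ← hyc, ← e1, ← PadicInt.norm_def, hN]
  have hN0 : nm (a / z) (b / z) (c / z) ≠ 0 := by
    intro h0
    rw [h0, Rat.cast_zero, norm_zero] at hN2
    exact zero_ne_one hN2
  have hNv := val_zero _ hN2
  have hfac : nm a b c = z ^ 3 * nm (a / z) (b / z) (c / z) := by
    unfold nm
    field_simp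
  refine ⟨z, hz, ?_, ?_, ?_⟩
  · rw [hfac]; exact mul_ne_zero (pow_ne_zero _ hz) hN0
  · rw [hfac, padicValRat.mul (pow_ne_zero _ hz) hN0, hNv, padicValRat.pow]
    push_cast
    ring
  · by_cases ht : tr a b c = 0
    · left; exact ht
    right
    apply val_le ht hz
    have h1 : ((tr a b c : ℚ) : ℚ_[p]) = 3 * (a : ℚ_[p]) - b + 5 * c := by
      unfold tr; push_cast; ring
    rw [h1]
    have h3 : ‖(3 : ℚ_[p])‖ ≤ 1 := by
      have := Padic.norm_int_le_one (p := p) 3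
      exact_mod_cast this
    have h5 : ‖(5 : ℚ_[p])‖ ≤ 1 := by
      have := Padic.norm_int_le_one (p := p) 5
      exact_mod_cast this
    have e1 : ‖(3 : ℚ_[p]) * (a : ℚ_[p])‖ ≤ ‖(z : ℚ_[p])‖ := by
      rw [norm_mul]
      calc _ ≤ 1 * ‖(a : ℚ_[p])‖ := mul_le_mul_of_nonneg_right h3 (norm_nonneg _)
        _ ≤ _ := by rw [one_mul]; exact ha
    have e2 : ‖(5 : ℚ_[p]) * (c : ℚ_[p])‖ ≤ ‖(z : ℚ_[p])‖ := by
      rw [norm_mul]
      calc _ ≤ 1 * ‖(c : ℚ_[p])‖ := mul_le_mul_of_nonneg_right h5 (norm_nonneg _)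
        _ ≤ _ := by rw [one_mul]; exact hc
    have e3 : ‖(3 : ℚ_[p]) * (a : ℚ_[p]) - b‖ ≤ ‖(z : ℚ_[p])‖ := by
      rw [sub_eq_add_neg]
      exact (Padic.nonarchimedean _ _).trans (max_le e1 (by rw [norm_neg]; exact hb))
    exact (Padic.nonarchimedean _ _).trans (max_le e3 e2)

/-! ### the quadratic norm form -/

theorem ns5 : ¬ IsSquare (2 : ZMod 5) ∧ ¬ IsSquare (3 : ZMod 5) := by decide

theorem aniso5 {p : ℕ} (hp : I5 p) [Fact p.Prime] (x y : ZMod p) (h : x ^ 2 - 5 * y ^ 2 = 0) :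
    x = 0 ∧ y = 0 := by
  have hns : ¬ IsSquare (5 : ZMod p) := by
    intro hsq
    have : Fact (Nat.Prime 5) := ⟨Nat.prime_five⟩
    have h1 := (ZMod.exists_sq_eq_prime_iff_of_mod_four_eq_one (p := 5) (q := p) (by norm_num)
      hp.2.1).2 (by exact_mod_cast hsq)
    have h2 : ((p : ℕ) : ZMod 5) = ((p % 5 : ℕ) : ZMod 5) := by
      rw [ZMod.natCast_mod]
    rw [h2] at h1
    rcases hp.2.2 with h3 | h3 <;> rw [h3, Nat.cast_ofNat] at h1
    · exact ns5.1 h1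
    · exact ns5.2 h1
  have hy : y = 0 := by
    by_contra hy
    apply hns
    refine ⟨x / y, ?_⟩
    field_simp
    linear_combination -h
  rw [hy] at h
  refine ⟨?_, hy⟩
  have h1 : x ^ 2 = 0 := by linear_combination h
  exact pow_eq_zero_iff (two_ne_zero) |>.1 h1

theorem form5 {p : ℕ} (hp : I5 p) (a b : ℚ) (h : ¬ (a = 0 ∧ b = 0)) :
    ∃ z : ℚ, z ≠ 0 ∧ a ^ 2 - 5 * b ^ 2 ≠ 0 ∧ padicValRat p (a ^ 2 - 5 * b ^ 2) =
      2 * padicValRat p z ∧ (a = 0 ∨ padicValRat p z ≤ padicValRat p a) := by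
  have := Fact.mk hp.1
  obtain ⟨z, hz, hzm, ha, hb⟩ : ∃ z : ℚ, z ≠ 0 ∧ (z = a ∨ z = b) ∧
      ‖(a : ℚ_[p])‖ ≤ ‖(z : ℚ_[p])‖ ∧ ‖(b : ℚ_[p])‖ ≤ ‖(z : ℚ_[p])‖ := by
    have key : ∀ z : ℚ, ‖(a : ℚ_[p])‖ ≤ ‖(z : ℚ_[p])‖ → ‖(b : ℚ_[p])‖ ≤ ‖(z : ℚ_[p])‖ →
        z ≠ 0 := by
      intro z h1 h2 hz
      rw [hz, Rat.cast_zero, norm_zero] at h1 h2
      apply h
      refine ⟨?_, ?_⟩
      · have := norm_eq_zero.1 (le_antisymm h1 (norm_nonneg _)); exact_mod_cast this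
      · have := norm_eq_zero.1 (le_antisymm h2 (norm_nonneg _)); exact_mod_cast this
    rcases le_total ‖(a : ℚ_[p])‖ ‖(b : ℚ_[p])‖ with h1 | h1
    · exact ⟨b, key b h1 le_rfl, Or.inr rfl, h1, le_rfl⟩
    · exact ⟨a, key a le_rfl h1, Or.inl rfl, le_rfl, h1⟩
  have hint : ∀ x : ℚ, ‖(x : ℚ_[p])‖ ≤ ‖(z : ℚ_[p])‖ → ‖((x / z : ℚ) : ℚ_[p])‖ ≤ 1 := by
    intro x hx
    rw [Rat.cast_div, norm_div]
    exact div_le_one_of_le₀ hx (norm_nonneg _)
  obtain ⟨ya, hya⟩ : ∃ ya : ℤ_[p], (ya : ℚ_[p]) = ((a / z : ℚ) : ℚ_[p]) :=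
    ⟨⟨_, hint a ha⟩, rfl⟩
  obtain ⟨yb, hyb⟩ : ∃ yb : ℤ_[p], (yb : ℚ_[p]) = ((b / z : ℚ) : ℚ_[p]) :=
    ⟨⟨_, hint b hb⟩, rfl⟩
  have hone : ∀ (x : ℚ) (Y : ℤ_[p]), (Y : ℚ_[p]) = ((x / z : ℚ) : ℚ_[p]) → z = x → Y = 1 := by
    intro x Y hY hzx
    apply PadicInt.ext
    rw [hY, ← hzx, div_self hz, Rat.cast_one, PadicInt.coe_one]
  have hN : ‖ya ^ 2 - 5 * yb ^ 2‖ = 1 := by
    apply norm_one_of
    rw [map_sub, map_mul, map_pow, map_pow, map_ofNat]
    intro h0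
    obtain ⟨h1, h2⟩ := aniso5 hp _ _ h0
    rcases hzm with h4 | h4
    · rw [hone a _ hya h4, map_one] at h1; exact one_ne_zero h1
    · rw [hone b _ hyb h4, map_one] at h2; exact one_ne_zero h2
  have hN2 : ‖(((a / z) ^ 2 - 5 * (b / z) ^ 2 : ℚ) : ℚ_[p])‖ = 1 := by
    have e1 : ((ya ^ 2 - 5 * yb ^ 2 : ℤ_[p]) : ℚ_[p]) = (ya : ℚ_[p]) ^ 2 - 5 * (yb : ℚ_[p]) ^ 2 := by
      push_cast
      rfl
    have e2 : (((a / z) ^ 2 - 5 * (b / z) ^ 2 : ℚ) : ℚ_[p]) =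
        ((a / z : ℚ) : ℚ_[p]) ^ 2 - 5 * ((b / z : ℚ) : ℚ_[p]) ^ 2 := by
      rw [Rat.cast_sub, Rat.cast_mul, Rat.cast_pow, Rat.cast_pow, Rat.cast_ofNat]
    rw [e2, ← hya, ← hyb, ← e1, ← PadicInt.norm_def, hN]
  have hN0 : (a / z) ^ 2 - 5 * (b / z) ^ 2 ≠ 0 := by
    intro h0
    rw [h0, Rat.cast_zero, norm_zero] at hN2
    exact zero_ne_one hN2
  have hNv := val_zero _ hN2
  have hfac : a ^ 2 - 5 * b ^ 2 = z ^ 2 * ((a / z) ^ 2 - 5 * (b / z) ^ 2) := by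
    field_simp
  refine ⟨z, hz, ?_, ?_, ?_⟩
  · rw [hfac]; exact mul_ne_zero (pow_ne_zero _ hz) hN0
  · rw [hfac, padicValRat.mul (pow_ne_zero _ hz) hN0, hNv, padicValRat.pow]
    push_cast
    ring
  · by_cases ha0 : a = 0
    · left; exact ha0
    · right; exact val_le ha0 hz ha

/-! ### the tests -/

theorem add_min {p : ℕ} [Fact p.Prime] {q r : ℚ} (hq : q ≠ 0) (hr : r ≠ 0)
    (h : padicValRat p q ≠ padicValRat p r) : q + r ≠ 0 ∧
    padicValRat p (q + r) = min (padicValRat p q) (padicValRat p r) := by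
  have h0 : q + r ≠ 0 := by
    intro h0
    apply h
    have : q = -r := by linarith
    rw [this, padicValRat.neg]
  exact ⟨h0, padicValRat.add_eq_min h0 hq hr h⟩

theorem t5s : S_T5s := by
  intro N F hN hT s hs hodd
  have := Fact.mk hs.1
  obtain ⟨w, y, u, hE⟩ := hT
  by_cases hF : F = 0
  · left; exact hF
  right
  by_contra hcon
  push Not at hcon
  obtain ⟨z, hz, h1, h2, h3⟩ := form5 hs F w (fun h => hF h.1)
  have h3' := h3.resolve_left hF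
  have hE2 : F ^ 2 - 5 * w ^ 2 = N * (y ^ 2 - 5 * u ^ 2 - 1) := by linarith
  have hq0 : y ^ 2 - 5 * u ^ 2 - 1 ≠ 0 := by
    intro h0
    rw [h0, mul_zero] at hE2
    exact h1 hE2
  have hv := congrArg (padicValRat s) hE2
  rw [h2, padicValRat.mul hN hq0] at hv
  obtain ⟨k, hk⟩ := hodd
  by_cases hyu : y = 0 ∧ u = 0
  · rw [hyu.1, hyu.2] at hv
    have : padicValRat s (0 ^ 2 - 5 * 0 ^ 2 - 1 : ℚ) = 0 := by
      norm_num [padicValRat.neg]
    rw [this] at hv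
    omega
  · obtain ⟨z', hz', h4, h5, -⟩ := form5 hs y u hyu
    have hone : padicValRat s (-1 : ℚ) = 0 := by
      rw [padicValRat.neg, padicValRat.one]
    by_cases hneg : padicValRat s (y ^ 2 - 5 * u ^ 2) < 0
    · obtain ⟨-, h6⟩ := add_min (p := s) h4 (neg_ne_zero.2 one_ne_zero) (by rw [hone]; omega)
      rw [← sub_eq_add_neg, hone] at h6
      rw [h6, h5] at hv
      rw [h5] at hneg
      rw [min_eq_left (by omega)] at hv
      omega
    · have h6 := padicValRat.min_le_padicValRat_add (p := s) (q := y ^ 2 - 5 * u ^ 2) (r := -1)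
        (by rw [← sub_eq_add_neg]; exact hq0)
      rw [← sub_eq_add_neg, hone, min_eq_right (by omega)] at h6
      omega

theorem t7s : S_T7s := by
  intro N F hN hT s hs hndvd
  have := Fact.mk hs.1
  obtain ⟨a, b, c, e, hE⟩ := hT
  by_cases hF : F = 0
  · left; exact hF
  right
  by_contra hcon
  push Not at hcon
  have hF2 : F ^ 2 ≠ 0 := pow_ne_zero _ hF
  have hN2 : N ^ 2 ≠ 0 := pow_ne_zero _ hN
  have vN2 : padicValRat s (N ^ 2) = 2 * padicValRat s N := by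
    rw [padicValRat.pow]; push_cast; ring
  have hnd : ∀ k : ℤ, padicValRat s N ≠ 3 * k := by
    intro k hk
    exact hndvd ⟨k, hk⟩
  -- all the terms are present
  have habc : ¬ (a = 0 ∧ b = 0 ∧ c = 0) := by
    rintro ⟨rfl, rfl, rfl⟩
    have h1 : nm 0 0 0 = 0 := by norm_num [nm]
    have h2 : tr 0 0 0 = 0 := by norm_num [tr]
    rw [h1, h2, mul_zero, add_zero, zero_add] at hE
    have h3 : N * e ^ 3 + N ^ 2 = 0 := (mul_eq_zero.1 hE).resolve_left hF2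
    have h4 : N = -e ^ 3 := by
      have h5 : N * (e ^ 3 + N) = 0 := by linear_combination h3
      have h6 := (mul_eq_zero.1 h5).resolve_left hN
      linarith
    have he : e ≠ 0 := by
      rintro rfl
      apply hN
      rw [h4]; norm_num
    have h5 := congrArg (padicValRat s) h4
    rw [padicValRat.neg, padicValRat.pow] at h5
    exact hnd (padicValRat s e) (by rw [h5]; push_cast; ring)
  obtain ⟨z, hz, hn0, hnv, htr⟩ := form7 hs a b c habc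
  have he : e ≠ 0 := by
    rintro rfl
    have h1 : F ^ 2 * (nm a b c + N ^ 2) = 0 := by linear_combination hE
    have h2 := (mul_eq_zero.1 h1).resolve_left hF2
    have h3 : nm a b c = -N ^ 2 := by linarith
    have h4 := congrArg (padicValRat s) h3
    rw [padicValRat.neg, vN2, hnv] at h4
    exact hnd (2 * padicValRat s N - padicValRat s z - (padicValRat s N - padicValRat s z)) (by omega)
  have hNe : N * e ^ 3 ≠ 0 := mul_ne_zero hN (pow_ne_zero _ he)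
  have vNe : padicValRat s (N * e ^ 3) = padicValRat s N + 3 * padicValRat s e := by
    rw [padicValRat.mul hN (pow_ne_zero _ he), padicValRat.pow]; push_cast; ring
  have d12 : padicValRat s (nm a b c) ≠ padicValRat s (N * e ^ 3) := by
    rw [hnv, vNe]
    intro h
    exact hnd (padicValRat s z - padicValRat s e) (by omega)
  obtain ⟨s1, s2⟩ := add_min hn0 hNe d12
  have d3 : padicValRat s (nm a b c + N * e ^ 3) ≠ padicValRat s (N ^ 2) := by
    rw [s2, hnv, vNe, vN2]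
    intro h
    rcases min_choice (3 * padicValRat s z) (padicValRat s N + 3 * padicValRat s e) with h' | h' <;>
      rw [h'] at h
    · exact hnd (2 * padicValRat s N - padicValRat s z - (padicValRat s N - padicValRat s z))
        (by omega)
    · exact hnd (padicValRat s e) (by omega)
  obtain ⟨s3, s4⟩ := add_min s1 hN2 d3
  have htr0 : tr a b c ≠ 0 := by
    intro h0
    rw [h0, mul_zero, add_zero] at hE
    exact s3 ((mul_eq_zero.1 hE).resolve_left hF2)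
  have htr' := htr.resolve_left htr0
  have hE2 : e * tr a b c = -(F ^ 2 * (nm a b c + N * e ^ 3 + N ^ 2)) := by linarith
  have hv := congrArg (padicValRat s) hE2
  rw [padicValRat.neg, padicValRat.mul he htr0, padicValRat.mul hF2 s3, padicValRat.pow, s4, s2,
    hnv, vNe, vN2] at hv
  push_cast at hv
  have hd1 : ∀ k : ℤ, padicValRat s N ≠ 3 * k := hnd
  have m1 := min_le_left (min (3 * padicValRat s z) (padicValRat s N + 3 * padicValRat s e))
    (2 * padicValRat s N)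
  have m2 := min_le_right (min (3 * padicValRat s z) (padicValRat s N + 3 * padicValRat s e))
    (2 * padicValRat s N)
  have m3 := min_le_left (3 * padicValRat s z) (padicValRat s N + 3 * padicValRat s e)
  have m4 := min_le_right (3 * padicValRat s z) (padicValRat s N + 3 * padicValRat s e)
  have hz3 := hnd (padicValRat s z - padicValRat s e)
  omega

theorem result : S_T5s ∧ S_T7s := ⟨t5s, t7s⟩

end Pool.Agent.TH75.J1413
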