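import Pool.Agent.TH716.TW.Defs

/-!
# Combinatorics for the growth lemmas (helper75, jobs 1411 and 1412)
-/

set_option autoImplicit false

namespace Pool.Agent.TH75.TW

open Pool.Agent.TH716.TW Finset

/-- rank and law of repetition for one prime -/
def Rk1 (d : ℕ → ℕ → ℕ) (s r δ : ℕ) : Prop := 0 < r ∧ 0 < δ ∧
  ∀ n : ℕ, 0 < n → d s n = if r ∣ n then δ + padicValNat s (n / r) else 0

theorem padic_prod {S : Finset ℕ} (hS : ∀ l ∈ S, l.Prime) {q : ℕ} (hq : q.Prime) :
    padicValNat q (∏ x ∈ S, x) = if q ∈ S then 1 else 0 := by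
  have := Fact.mk hq
  induction S using Finset.induction_on with
  | empty => simp
  | insert a S ha ih =>
    have hap := hS a (mem_insert_self _ _)
    have hS' : ∀ l ∈ S, l.Prime := fun l hl => hS l (mem_insert_of_mem hl)
    have h0 : ∏ x ∈ S, x ≠ 0 := prod_ne_zero_iff.2 fun x hx => (hS' x hx).ne_zero
    rw [prod_insert ha, padicValNat.mul hap.ne_zero h0, ih hS']
    by_cases h : q = a
    · subst h
      simp [ha]
    · have := Fact.mk hap
      rw [padicValNat_primes h]
      simp [h]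

theorem prod_pos' {S : Finset ℕ} (hS : ∀ l ∈ S, l.Prime) : 0 < ∏ x ∈ S, x :=
  prod_pos fun x hx => (hS x hx).pos

/-- multiplying by another prime does not change `d s` if the rank has small valuation -/
theorem d_mul {d : ℕ → ℕ → ℕ} {s r δ : ℕ} (h : Rk1 d s r δ) (hs : s.Prime) {l n : ℕ}
    (hl : l.Prime) (hls : l ≠ s) (hn : 0 < n) (hv : padicValNat l r ≤ padicValNat l n) :
    d s (l * n) = d s n := by
  obtain ⟨hr, -, hd⟩ := h
  have := Fact.mk hl
  have := Fact.mk hs
  rw [hd _ (Nat.mul_pos hl.pos hn), hd _ hn]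
  by_cases h1 : r ∣ n
  · obtain ⟨t, rfl⟩ := h1
    have ht : t ≠ 0 := by rintro rfl; simp at hn
    rw [if_pos (Dvd.dvd.mul_left (Dvd.intro _ rfl) l), if_pos (Dvd.intro _ rfl),
      show l * (r * t) = r * (l * t) by ring, Nat.mul_div_cancel_left _ hr,
      Nat.mul_div_cancel_left _ hr, padicValNat.mul hl.ne_zero ht, padicValNat_primes hls.symm,
      zero_add]
  · rw [if_neg h1, if_neg]
    rintro ⟨t, ht⟩
    have ht0 : t ≠ 0 := by
      rintro rfl
      rw [mul_zero] at ht
      exact (Nat.mul_pos hl.pos hn).ne' ht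
    have hv2 := congrArg (padicValNat l) ht
    rw [padicValNat.mul hl.ne_zero hn.ne', padicValNat.mul hr.ne' ht0, padicValNat_self] at hv2
    have h3 : 1 ≤ padicValNat l t := by omega
    have h4 : l ∣ t := by
      by_contra h5
      rw [padicValNat.eq_zero_of_not_dvd h5] at h3
      omega
    obtain ⟨u, rfl⟩ := h4
    apply h1
    refine ⟨u, ?_⟩
    have : l * n = l * (r * u) := by rw [ht]; ring
    exact Nat.eq_of_mul_eq_mul_left hl.pos this

/-- multiplying by a prime to `s` number does not change `d s`, if the rank divides -/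
theorem d_mul' {d : ℕ → ℕ → ℕ} {s r δ : ℕ} (h : Rk1 d s r δ) (hs : s.Prime) {t n : ℕ}
    (ht : 0 < t) (hst : ¬ s ∣ t) (hn : 0 < n) (hrn : r ∣ n) : d s (n * t) = d s n := by
  obtain ⟨hr, -, hd⟩ := h
  have := Fact.mk hs
  obtain ⟨u, rfl⟩ := hrn
  have hu : u ≠ 0 := by rintro rfl; simp at hn
  rw [hd _ (Nat.mul_pos hn ht), hd _ hn, if_pos (Dvd.dvd.mul_right (Dvd.intro _ rfl) t),
    if_pos (Dvd.intro _ rfl), mul_assoc, Nat.mul_div_cancel_left _ hr,
    Nat.mul_div_cancel_left _ hr, padicValNat.mul hu ht.ne', padicValNat.eq_zero_of_not_dvd hst,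
    add_zero]

section

variable {R : Type*} [CommRing R]

/-- what follows if the alternating sum of `d s` over the products does not vanish -/
theorem alt_ne {d : ℕ → ℕ → ℕ} {s r δ : ℕ} (h : Rk1 d s r δ) (hs : s.Prime) {c : ℕ} (hc : 0 < c)
    {S : Finset ℕ} (hS : ∀ l ∈ S, l.Prime)
    (hne : ∑ T ∈ S.powerset, (-1 : R) ^ T.card * (d s (c * ∏ x ∈ T, x) : R) ≠ 0) :
    r ∣ c * ∏ x ∈ S, x ∧ (∀ l ∈ S, l ≠ s → padicValNat l r = padicValNat l c + 1) ∧
      (s ∉ S → (d s (c * ∏ x ∈ S, x) : R) ≠ 0) := by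
  have hpos : ∀ T ⊆ S, 0 < c * ∏ x ∈ T, x := fun T hT =>
    Nat.mul_pos hc (prod_pos' fun l hl => hS l (hT hl))
  have hdvd : ∀ T ⊆ S, ∏ x ∈ T, x ∣ ∏ x ∈ S, x := fun T hT => prod_dvd_prod_of_subset T S _ hT
  have hr1 : r ∣ c * ∏ x ∈ S, x := by
    by_contra hcon
    apply hne
    refine sum_eq_zero fun T hT => ?_
    rw [mem_powerset] at hT
    rw [h.2.2 _ (hpos T hT), if_neg, Nat.cast_zero, mul_zero]
    intro h1
    exact hcon (h1.trans (Nat.mul_dvd_mul_left c (hdvd T hT)))
  refine ⟨hr1, ?_, ?_⟩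
  · intro l hl hls
    have hlp := hS l hl
    have := Fact.mk hlp
    have hle : padicValNat l r ≤ padicValNat l c + 1 := by
      have h1 := (padicValNat_dvd_iff_le (hpos S (Subset.refl _)).ne').1
        ((pow_padicValNat_dvd (p := l) (n := r)).trans hr1)
      rw [padicValNat.mul hc.ne' (prod_pos' hS).ne', padic_prod hS hlp, if_pos hl] at h1
      exact h1
    by_contra hcon
    have hlt : padicValNat l r ≤ padicValNat l c := by omega
    apply hne
    have hins : S = insert l (S.erase l) := (insert_erase hl).symm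
    rw [hins, sum_powerset_insert (notMem_erase l S), ← sum_add_distrib]
    refine sum_eq_zero fun T hT => ?_
    rw [mem_powerset] at hT
    have hlT : l ∉ T := fun h1 => notMem_erase l S (hT h1)
    have hTS : T ⊆ S := hT.trans (erase_subset _ _)
    rw [card_insert_of_notMem hlT, prod_insert hlT,
      show c * (l * ∏ x ∈ T, x) = l * (c * ∏ x ∈ T, x) by ring,
      d_mul h hs hlp hls (hpos T hTS) (hlt.trans (by
        rw [padicValNat.mul hc.ne' (prod_pos' fun x hx => hS x (hTS hx)).ne']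
        omega))]
    ring
  · intro hsS h0
    apply hne
    refine sum_eq_zero fun T hT => ?_
    rw [mem_powerset] at hT
    by_cases hr : r ∣ c * ∏ x ∈ T, x
    · obtain ⟨t, ht⟩ := hdvd T hT
      have ht0 : 0 < t := by
        rcases Nat.eq_zero_or_pos t with h1 | h1
        · rw [h1, mul_zero] at ht
          exact absurd ht (prod_pos' hS).ne'
        · exact h1
      have hst : ¬ s ∣ t := by
        intro h1
        have := Fact.mk hs
        have h2 : s ∣ ∏ x ∈ S, x := by rw [ht]; exact Dvd.dvd.mul_left h1 _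
        have h3 := padic_prod hS hs
        rw [if_neg hsS] at h3
        have h4 := (dvd_iff_padicValNat_ne_zero (prod_pos' hS).ne').1 h2
        exact h4 h3
      have h5 := d_mul' h hs ht0 hst (hpos T hT) hr
      rw [mul_assoc, ← ht] at h5
      rw [← h5, h0, mul_zero]
    · rw [h.2.2 _ (hpos T hT), if_neg hr, Nat.cast_zero, mul_zero]

/-- a function which is additive on the numbers prime to `p` is a sum over the primes -/
theorem additive_sum {p : ℕ} {L : ℕ → R} (h1 : L 1 = 0)
    (hL : ∀ a b, ¬ p ∣ a → ¬ p ∣ b → L (a * b) = L a + L b) {N : ℕ} (hN : N ≠ 0) (hpN : ¬ p ∣ N) :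
    L N = N.factorization.sum fun s k => (k : R) * L s := by
  induction N using Nat.recOnMul with
  | zero => exact absurd rfl hN
  | one => simp [h1]
  | prime q hq =>
    rw [hq.factorization, Finsupp.sum_single_index (by simp)]
    simp
  | mul a b iha ihb =>
    have ha : a ≠ 0 := left_ne_zero_of_mul hN
    have hb : b ≠ 0 := right_ne_zero_of_mul hN
    have hpa : ¬ p ∣ a := fun h => hpN (Dvd.dvd.mul_right h _)
    have hpb : ¬ p ∣ b := fun h => hpN (Dvd.dvd.mul_left h _)
    rw [hL a b hpa hpb, iha ha hpa, ihb hb hpb, Nat.factorization_mul ha hb,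
      Finsupp.sum_add_index']
    · intro s; simp
    · intro s k1 k2; push_cast; ring

/-- from the alternating sum of `L (D n)` to a prime -/
theorem exists_prime {D : ℕ → ℕ} {d : ℕ → ℕ → ℕ}
    (hD : ∀ n : ℕ, 0 < n → D n ≠ 0 ∧ ∀ s : ℕ, s.Prime → padicValNat s (D n) = d s n)
    {p : ℕ} {L : ℕ → R} (h1 : L 1 = 0)
    (hL : ∀ a b, ¬ p ∣ a → ¬ p ∣ b → L (a * b) = L a + L b) {c : ℕ} (hc : 0 < c)
    {S : Finset ℕ} (hS : ∀ l ∈ S, l.Prime) (hpD : ∀ T ⊆ S, ¬ p ∣ D (c * ∏ x ∈ T, x))
    (hne : ∑ T ∈ S.powerset, (-1 : R) ^ T.card * L (D (c * ∏ x ∈ T, x)) ≠ 0) :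
    ∃ s : ℕ, s.Prime ∧ L s ≠ 0 ∧
      ∑ T ∈ S.powerset, (-1 : R) ^ T.card * (d s (c * ∏ x ∈ T, x) : R) ≠ 0 := by
  have hpos : ∀ T ⊆ S, 0 < c * ∏ x ∈ T, x := fun T hT =>
    Nat.mul_pos hc (prod_pos' fun l hl => hS l (hT hl))
  set P : Finset ℕ := S.powerset.biUnion fun T => (D (c * ∏ x ∈ T, x)).primeFactors with hP
  have hsum : ∀ T ∈ S.powerset, L (D (c * ∏ x ∈ T, x)) =
      ∑ s ∈ P, (d s (c * ∏ x ∈ T, x) : R) * L s := by
    intro T hT
    have hT' := mem_powerset.1 hT
    obtain ⟨hD0, hDv⟩ := hD _ (hpos T hT')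
    rw [additive_sum h1 hL hD0 (hpD T hT'),
      Finsupp.sum_of_support_subset (s := P) _ ?_ _ ?_]
    · refine sum_congr rfl fun s hs => ?_
      rw [hP, mem_biUnion] at hs
      obtain ⟨T', _, hs'⟩ := hs
      have hsp := Nat.prime_of_mem_primeFactors hs'
      rw [Nat.factorization_def _ hsp, hDv s hsp]
    · intro s hs
      rw [hP, mem_biUnion]
      exact ⟨T, hT, by simpa using hs⟩
    · intro s _
      simp
  by_contra hcon
  push Not at hcon
  apply hne
  calc ∑ T ∈ S.powerset, (-1 : R) ^ T.card * L (D (c * ∏ x ∈ T, x))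
      = ∑ T ∈ S.powerset, ∑ s ∈ P, (-1 : R) ^ T.card * ((d s (c * ∏ x ∈ T, x) : R) * L s) :=
        sum_congr rfl fun T hT => by rw [hsum T hT, mul_sum]
    _ = ∑ s ∈ P, ∑ T ∈ S.powerset, (-1 : R) ^ T.card * ((d s (c * ∏ x ∈ T, x) : R) * L s) :=
        sum_comm
    _ = 0 := by
      refine sum_eq_zero fun s hs => ?_
      rw [hP, mem_biUnion] at hs
      obtain ⟨T', _, hs'⟩ := hs
      have hsp := Nat.prime_of_mem_primeFactors hs'
      by_cases hLs : L s = 0
      · simp [hLs]
      · have h2 := hcon s hsp hLs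
        simp_rw [← mul_assoc]
        rw [← sum_mul, h2, zero_mul]

end

/-- the count -/
theorem count {A U E : Finset ℕ} (sig : ℕ → Finset ℕ)
    (h : ∀ S ⊆ A, S.Nonempty → (∃ s ∈ U ∪ E ∪ A, S = sig s) ∨ ∃ s ∈ A, S = insert s (sig s)) :
    2 ^ A.card ≤ U.card + E.card + 2 * A.card + 1 := by
  have hsub : A.powerset ⊆ insert ∅ ((U ∪ E ∪ A).image sig ∪ A.image fun s => insert s (sig s)) := by
    intro S hS
    rw [mem_powerset] at hS
    rcases S.eq_empty_or_nonempty with h0 | h0
    · rw [h0]; exact mem_insert_self _ _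
    · refine mem_insert_of_mem ?_
      rcases h S hS h0 with ⟨s, hs, rfl⟩ | ⟨s, hs, hs2⟩
      · exact mem_union_left _ (mem_image_of_mem _ hs)
      · refine mem_union_right _ ?_
        rw [hs2]
        exact mem_image_of_mem (fun s => insert s (sig s)) hs
  have h1 := card_le_card hsub
  rw [card_powerset] at h1
  have h2 := card_insert_le (∅ : Finset ℕ)
    ((U ∪ E ∪ A).image sig ∪ A.image fun s => insert s (sig s))
  have h3 := card_union_le ((U ∪ E ∪ A).image sig) (A.image fun s => insert s (sig s))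
  have h4 : ((U ∪ E ∪ A).image sig).card ≤ (U ∪ E ∪ A).card := card_image_le
  have h5 : (A.image fun s => insert s (sig s)).card ≤ A.card := card_image_le
  have h6 := card_union_le (U ∪ E) A
  have h7 := card_union_le U E
  omega

/-- the conclusion for one set -/
theorem one_set {R : Type*} [CommRing R] {d : ℕ → ℕ → ℕ} {A U E : Finset ℕ} {m : ℕ}
    (hm : 0 < m) (hA : ∀ l ∈ A, l.Prime) (rk : ℕ → ℕ) (δ : ℕ → ℕ)
    (hrk : ∀ s : ℕ, s.Prime → Rk1 d s (rk s) (δ s)) {c : ℕ} (hc : 0 < c)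
    (hcA : ∀ l ∈ A, padicValNat l m = padicValNat l c + 1)
    (hcm : c * ∏ x ∈ A, x ∣ m)
    (hce : ∀ s : ℕ, s.Prime → s ∉ E → s ∉ A → padicValNat s m = padicValNat s c)
    {S : Finset ℕ} (hS : S ⊆ A) {s : ℕ} (hs : s.Prime)
    (hU : s ∉ E → s ∉ A → (d s m : R) ≠ 0 → s ∈ U)
    (hne : ∑ T ∈ S.powerset, (-1 : R) ^ T.card * (d s (c * ∏ x ∈ T, x) : R) ≠ 0) :
    (∃ s ∈ U ∪ E ∪ A, S = A.filter fun l => padicValNat l (rk s) = padicValNat l m) ∨
      ∃ s ∈ A, S = insert s (A.filter fun l => padicValNat l (rk s) = padicValNat l m) := by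
  have hSp : ∀ l ∈ S, l.Prime := fun l hl => hA l (hS hl)
  obtain ⟨h1, h2, h3⟩ := alt_ne (hrk s hs) hs hc hSp hne
  have hr0 := (hrk s hs).1
  -- the filter is contained in S
  have hle : ∀ l ∈ A, padicValNat l (rk s) = padicValNat l m → l ∈ S := by
    intro l hl he
    by_contra hcon
    have hlp := hA l hl
    have := Fact.mk hlp
    have h4 := (padicValNat_dvd_iff_le (Nat.mul_pos hc (prod_pos' hSp)).ne').1
        ((pow_padicValNat_dvd (p := l) (n := rk s)).trans h1)
    rw [padicValNat.mul hc.ne' (prod_pos' hSp).ne', padic_prod hSp hlp, if_neg hcon, he,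
      hcA l hl] at h4
    omega
  have hge : ∀ l ∈ S, l ≠ s → padicValNat l (rk s) = padicValNat l m := by
    intro l hl hls
    rw [h2 l hl hls, hcA l (hS hl)]
  by_cases hsS : s ∈ S
  · right
    refine ⟨s, hS hsS, ?_⟩
    ext l
    rw [mem_insert, mem_filter]
    constructor
    · intro hl
      by_cases hls : l = s
      · left; exact hls
      · right; exact ⟨hS hl, hge l hl hls⟩
    · rintro (rfl | ⟨hl, he⟩)
      · exact hsS
      · exact hle l hl he
  · left
    refine ⟨s, ?_, ?_⟩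
    · rw [mem_union, mem_union]
      by_cases hsA : s ∈ A
      · right; exact hsA
      left
      by_cases hsE : s ∈ E
      · right; exact hsE
      left
      refine hU hsE hsA ?_
      have := Fact.mk hs
      have h4 : c * ∏ x ∈ S, x ∣ m :=
        (Nat.mul_dvd_mul_left c (prod_dvd_prod_of_subset S A _ hS)).trans hcm
      obtain ⟨t, ht⟩ := h4
      have ht0 : 0 < t := by
        rcases Nat.eq_zero_or_pos t with h5 | h5
        · rw [h5, mul_zero] at ht
          exact absurd ht hm.ne'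
        · exact h5
      have hst : ¬ s ∣ t := by
        intro h5
        have h6 := hce s hs hsE hsA
        rw [ht, padicValNat.mul (Nat.mul_pos hc (prod_pos' hSp)).ne' ht0.ne',
          padicValNat.mul hc.ne' (prod_pos' hSp).ne', padic_prod hSp hs, if_neg hsS] at h6
        have h7 := (dvd_iff_padicValNat_ne_zero ht0.ne').1 h5
        omega
      rw [ht, d_mul' (hrk s hs) hs ht0 hst (Nat.mul_pos hc (prod_pos' hSp)) h1]
      exact h3 hsS
    · ext l
      rw [mem_filter]
      constructor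
      · intro hl
        exact ⟨hS hl, hge l hl fun h5 => hsS (h5 ▸ hl)⟩
      · rintro ⟨hl, he⟩
        exact hle l hl he

end Pool.Agent.TH75.TW
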